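import Mathlib

/-!
# Euler characteristics of long exact sequences
-/

set_option autoImplicit false

namespace Pool.Agent.Y111.HR

section

variable {A B C : Type} [AddCommGroup A] [AddCommGroup B] [AddCommGroup C] [Module ℚ A] [Module ℚ B]
  [Module ℚ C]

lemma fin_of_exact (f : A →ₗ[ℚ] B) (g : B →ₗ[ℚ] C) (h : Function.Exact f g)
    (hA : FiniteDimensional ℚ A) (hC : FiniteDimensional ℚ C) : FiniteDimensional ℚ B := by
  have h1 : Module.Finite ℚ (LinearMap.range f) := inferInstance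
  have h2 : Module.Finite ℚ (LinearMap.range g) := inferInstance
  have h3 : LinearMap.ker g = LinearMap.range f := by
    ext x
    exact h x
  have h4 : Module.Finite ℚ (LinearMap.ker g) := by
    rw [h3]
    exact h1
  have h5 : (⊤ : Submodule ℚ B).FG := by
    apply Submodule.fg_of_fg_map_of_fg_inf_ker g
    · rw [← LinearMap.range_eq_map]
      exact (Module.Finite.iff_fg).mp h2
    · rw [top_inf_eq]
      exact (Module.Finite.iff_fg).mp h4
  exact ⟨h5⟩

lemma sub_of_exact (f : A →ₗ[ℚ] B) (g : B →ₗ[ℚ] C) (h : Function.Exact f g)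
    (hA : Subsingleton A) (hC : Subsingleton C) : Subsingleton B := by
  constructor
  have key : ∀ b : B, b = 0 := by
    intro b
    obtain ⟨a, rfl⟩ := (h b).mp (Subsingleton.elim _ _)
    rw [Subsingleton.elim a 0, map_zero]
  intro x y
  rw [key x, key y]

lemma sub_of_surj (g : B →ₗ[ℚ] C) (h : Function.Surjective g) (hB : Subsingleton B) :
    Subsingleton C := h.subsingleton

end

/-- a bounded family of groups indexed by the natural numbers -/
def Bdd (M : ℕ → Type) : Prop := ∃ B : ℕ, ∀ i, B ≤ i → Subsingleton (M i)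

/-- the Euler characteristic -/
noncomputable def chi (M : ℕ → Type) [∀ i, AddCommGroup (M i)] [∀ i, Module ℚ (M i)] : ℤ :=
  ∑ᶠ i : ℕ, (-1) ^ i * (Module.finrank ℚ (M i) : ℤ)

lemma chi_eq (M : ℕ → Type) [∀ i, AddCommGroup (M i)] [∀ i, Module ℚ (M i)] {B : ℕ}
    (h : ∀ i, B ≤ i → Subsingleton (M i)) :
    chi M = ∑ i ∈ Finset.range B, (-1) ^ i * (Module.finrank ℚ (M i) : ℤ) := by
  apply finsum_eq_sum_of_support_subset
  intro i hi
  by_contra hB
  have h1 : B ≤ i := by
    rw [Finset.coe_range, Set.mem_Iio] at hB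
    omega
  have := h i h1
  apply hi
  simp only
  rw [Module.finrank_zero_of_subsingleton, Nat.cast_zero, mul_zero]

lemma chi_congr {M N : ℕ → Type} [∀ i, AddCommGroup (M i)] [∀ i, Module ℚ (M i)]
    [∀ i, AddCommGroup (N i)] [∀ i, Module ℚ (N i)] (h : ∀ i, Nonempty (M i ≃ₗ[ℚ] N i)) :
    chi M = chi N := by
  unfold chi
  congr 1
  funext i
  obtain ⟨e⟩ := h i
  rw [e.finrank_eq]

section LES

variable {Z X U : ℕ → Type} [∀ i, AddCommGroup (Z i)] [∀ i, Module ℚ (Z i)]
  [∀ i, AddCommGroup (X i)] [∀ i, Module ℚ (X i)] [∀ i, AddCommGroup (U i)] [∀ i, Module ℚ (U i)]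
  {f : ∀ i, Z i →ₗ[ℚ] X i} {g : ∀ i, X i →ₗ[ℚ] U i} {d : ∀ i, U (i + 1) →ₗ[ℚ] Z i}

/-- Additivity of the Euler characteristic. -/
lemma chi_add (h : ∀ i, Function.Exact (f i) (g i) ∧ Function.Exact (g (i + 1)) (d i) ∧
      Function.Exact (d i) (f i)) (h0 : Function.Surjective (g 0))
    (hZ : ∀ i, FiniteDimensional ℚ (Z i)) (hX : ∀ i, FiniteDimensional ℚ (X i))
    (hU : ∀ i, FiniteDimensional ℚ (U i)) (bZ : Bdd Z) (bX : Bdd X) (bU : Bdd U) :
    chi X = chi Z + chi U := by
  obtain ⟨B1, h1⟩ := bZ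
  obtain ⟨B2, h2⟩ := bX
  obtain ⟨B3, h3⟩ := bU
  let B := max B1 (max B2 B3)
  have e1 : ∀ i, B ≤ i → Subsingleton (Z i) := fun i hi => h1 i ((le_max_left _ _).trans hi)
  have e2 : ∀ i, B ≤ i → Subsingleton (X i) := fun i hi =>
    h2 i (((le_max_left _ _).trans (le_max_right _ _)).trans hi)
  have e3 : ∀ i, B ≤ i → Subsingleton (U i) := fun i hi =>
    h3 i (((le_max_right _ _).trans (le_max_right _ _)).trans hi)
  rw [chi_eq X e2, chi_eq Z e1, chi_eq U e3]
  let a : ℕ → ℤ := fun i => Module.finrank ℚ (LinearMap.range (f i))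
  let b : ℕ → ℤ := fun i => Module.finrank ℚ (LinearMap.range (g i))
  let c : ℕ → ℤ := fun i => Module.finrank ℚ (LinearMap.range (d i))
  have rz : ∀ i, (Module.finrank ℚ (Z i) : ℤ) = a i + c i := by
    intro i
    have h4 := LinearMap.finrank_range_add_finrank_ker (f i)
    have h5 : LinearMap.ker (f i) = LinearMap.range (d i) := by
      ext x
      exact (h i).2.2 x
    rw [h5] at h4
    change _ = ((Module.finrank ℚ (LinearMap.range (f i)) : ℕ) : ℤ) +
      ((Module.finrank ℚ (LinearMap.range (d i)) : ℕ) : ℤ)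
    rw [← h4]
    push_cast
    ring
  have rx : ∀ i, (Module.finrank ℚ (X i) : ℤ) = b i + a i := by
    intro i
    have h4 := LinearMap.finrank_range_add_finrank_ker (g i)
    have h5 : LinearMap.ker (g i) = LinearMap.range (f i) := by
      ext x
      exact (h i).1 x
    rw [h5] at h4
    change _ = ((Module.finrank ℚ (LinearMap.range (g i)) : ℕ) : ℤ) +
      ((Module.finrank ℚ (LinearMap.range (f i)) : ℕ) : ℤ)
    rw [← h4]
    push_cast
    ring
  have ru0 : (Module.finrank ℚ (U 0) : ℤ) = b 0 := by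
    change _ = ((Module.finrank ℚ (LinearMap.range (g 0)) : ℕ) : ℤ)
    rw [LinearMap.range_eq_top.mpr h0, finrank_top]
  have ru : ∀ i, (Module.finrank ℚ (U (i + 1)) : ℤ) = c i + b (i + 1) := by
    intro i
    have h4 := LinearMap.finrank_range_add_finrank_ker (d i)
    have h5 : LinearMap.ker (d i) = LinearMap.range (g (i + 1)) := by
      ext x
      exact (h i).2.1 x
    rw [h5] at h4
    change _ = ((Module.finrank ℚ (LinearMap.range (d i)) : ℕ) : ℤ) +
      ((Module.finrank ℚ (LinearMap.range (g (i + 1))) : ℕ) : ℤ)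
    rw [← h4]
    push_cast
    ring
  have key : ∀ n : ℕ, ∑ i ∈ Finset.range (n + 1), (-1) ^ i * (Module.finrank ℚ (X i) : ℤ) +
      (-1) ^ n * c n = ∑ i ∈ Finset.range (n + 1), (-1) ^ i * (Module.finrank ℚ (Z i) : ℤ) +
      ∑ i ∈ Finset.range (n + 1), (-1) ^ i * (Module.finrank ℚ (U i) : ℤ) := by
    intro n
    induction n with
    | zero =>
      simp only [zero_add, Finset.range_one, Finset.sum_singleton, pow_zero, one_mul]
      rw [rx, rz, ru0]
      ring
    | succ n ih =>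
      rw [Finset.sum_range_succ _ (n + 1), Finset.sum_range_succ _ (n + 1),
        Finset.sum_range_succ _ (n + 1), rx (n + 1), rz (n + 1), ru n]
      rw [pow_succ]
      linear_combination ih
  have hB := key B
  have hc : c B = 0 := by
    have := e1 B le_rfl
    change ((Module.finrank ℚ (LinearMap.range (d B)) : ℕ) : ℤ) = 0
    rw [Module.finrank_zero_of_subsingleton, Nat.cast_zero]
  have hx : (Module.finrank ℚ (X B) : ℤ) = 0 := by
    have := e2 B le_rfl
    rw [Module.finrank_zero_of_subsingleton, Nat.cast_zero]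
  have hz : (Module.finrank ℚ (Z B) : ℤ) = 0 := by
    have := e1 B le_rfl
    rw [Module.finrank_zero_of_subsingleton, Nat.cast_zero]
  have hu : (Module.finrank ℚ (U B) : ℤ) = 0 := by
    have := e3 B le_rfl
    rw [Module.finrank_zero_of_subsingleton, Nat.cast_zero]
  rw [hc, mul_zero, add_zero, Finset.sum_range_succ, Finset.sum_range_succ, Finset.sum_range_succ,
    hx, hz, hu, mul_zero, add_zero, add_zero, add_zero] at hB
  exact hB

lemma fin_X (h : ∀ i, Function.Exact (f i) (g i) ∧ Function.Exact (g (i + 1)) (d i) ∧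
      Function.Exact (d i) (f i)) (hZ : ∀ i, FiniteDimensional ℚ (Z i))
    (hU : ∀ i, FiniteDimensional ℚ (U i)) (i : ℕ) : FiniteDimensional ℚ (X i) :=
  fin_of_exact (f i) (g i) (h i).1 (hZ i) (hU i)

lemma fin_Z (h : ∀ i, Function.Exact (f i) (g i) ∧ Function.Exact (g (i + 1)) (d i) ∧
      Function.Exact (d i) (f i)) (hX : ∀ i, FiniteDimensional ℚ (X i))
    (hU : ∀ i, FiniteDimensional ℚ (U i)) (i : ℕ) : FiniteDimensional ℚ (Z i) :=
  fin_of_exact (d i) (f i) (h i).2.2 (hU (i + 1)) (hX i)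

lemma fin_U (h : ∀ i, Function.Exact (f i) (g i) ∧ Function.Exact (g (i + 1)) (d i) ∧
      Function.Exact (d i) (f i)) (h0 : Function.Surjective (g 0))
    (hZ : ∀ i, FiniteDimensional ℚ (Z i)) (hX : ∀ i, FiniteDimensional ℚ (X i)) (i : ℕ) :
    FiniteDimensional ℚ (U i) := by
  cases i with
  | zero => exact Module.Finite.of_surjective (g 0) h0
  | succ i => exact fin_of_exact (g (i + 1)) (d i) (h i).2.1 (hX (i + 1)) (hZ i)

lemma bdd_X (h : ∀ i, Function.Exact (f i) (g i) ∧ Function.Exact (g (i + 1)) (d i) ∧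
      Function.Exact (d i) (f i)) (hZ : Bdd Z) (hU : Bdd U) : Bdd X := by
  obtain ⟨B, h1⟩ := hZ
  obtain ⟨B', h2⟩ := hU
  exact ⟨max B B', fun i hi => sub_of_exact (f i) (g i) (h i).1
    (h1 i ((le_max_left _ _).trans hi)) (h2 i ((le_max_right _ _).trans hi))⟩

lemma bdd_Z (h : ∀ i, Function.Exact (f i) (g i) ∧ Function.Exact (g (i + 1)) (d i) ∧
      Function.Exact (d i) (f i)) (hX : Bdd X) (hU : Bdd U) : Bdd Z := by
  obtain ⟨B, h1⟩ := hX
  obtain ⟨B', h2⟩ := hU
  exact ⟨max B B', fun i hi => sub_of_exact (d i) (f i) (h i).2.2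
    (h2 (i + 1) (((le_max_right _ _).trans hi).trans (Nat.le_succ i)))
    (h1 i ((le_max_left _ _).trans hi))⟩

lemma bdd_U (h : ∀ i, Function.Exact (f i) (g i) ∧ Function.Exact (g (i + 1)) (d i) ∧
      Function.Exact (d i) (f i)) (hZ : Bdd Z) (hX : Bdd X) : Bdd U := by
  obtain ⟨B, h1⟩ := hX
  obtain ⟨B', h2⟩ := hZ
  refine ⟨max B B' + 1, fun i hi => ?_⟩
  obtain ⟨i, rfl⟩ : ∃ k, i = k + 1 := ⟨i - 1, by omega⟩
  have h3 : max B B' ≤ i := by omega
  exact sub_of_exact (g (i + 1)) (d i) (h i).2.1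
    (h1 (i + 1) (((le_max_left _ _).trans h3).trans (Nat.le_succ i)))
    (h2 i ((le_max_right _ _).trans h3))

end LES

section Torus

variable {M L T : ℕ → Type} [∀ i, AddCommGroup (M i)] [∀ i, Module ℚ (M i)]
  [∀ i, AddCommGroup (L i)] [∀ i, Module ℚ (L i)] [∀ i, AddCommGroup (T i)] [∀ i, Module ℚ (T i)]

/-- The groups of `X × 𝔾_m`: Euler characteristics. -/
lemma chi_torus (e0 : T 0 ≃ₗ[ℚ] L 0) (e : ∀ i, T (i + 1) ≃ₗ[ℚ] L (i + 1) × M i)
    (hM : ∀ i, FiniteDimensional ℚ (M i)) (hL : ∀ i, FiniteDimensional ℚ (L i))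
    (bM : Bdd M) (bL : Bdd L) (bT : Bdd T) : chi T = chi L - chi M := by
  obtain ⟨B1, h1⟩ := bM
  obtain ⟨B2, h2⟩ := bL
  obtain ⟨B3, h3⟩ := bT
  let B := max B1 (max B2 B3)
  have e1 : ∀ i, B ≤ i → Subsingleton (M i) := fun i hi => h1 i ((le_max_left _ _).trans hi)
  have e2 : ∀ i, B + 1 ≤ i → Subsingleton (L i) := fun i hi =>
    h2 i (((le_max_left _ _).trans (le_max_right _ _)).trans ((Nat.le_succ B).trans hi))
  have e3 : ∀ i, B + 1 ≤ i → Subsingleton (T i) := fun i hi =>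
    h3 i (((le_max_right _ _).trans (le_max_right _ _)).trans ((Nat.le_succ B).trans hi))
  rw [chi_eq T e3, chi_eq L e2, chi_eq M e1, Finset.sum_range_succ', Finset.sum_range_succ' _ B]
  have h4 : ∀ i, (Module.finrank ℚ (T (i + 1)) : ℤ) = Module.finrank ℚ (L (i + 1)) +
      Module.finrank ℚ (M i) := by
    intro i
    rw [(e i).finrank_eq, Module.finrank_prod]
    push_cast
    ring
  have h5 : ∑ k ∈ Finset.range B, (-1) ^ (k + 1) * (Module.finrank ℚ (T (k + 1)) : ℤ) =
      ∑ k ∈ Finset.range B, (-1) ^ (k + 1) * (Module.finrank ℚ (L (k + 1)) : ℤ) -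
      ∑ k ∈ Finset.range B, (-1) ^ k * (Module.finrank ℚ (M k) : ℤ) := by
    rw [← Finset.sum_sub_distrib]
    apply Finset.sum_congr rfl
    intro k _
    rw [h4, pow_succ]
    ring
  rw [h5, e0.finrank_eq]
  ring

end Torus

end Pool.Agent.Y111.HR
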