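import Pool.Agent.Y116.UV.Defs
import Pool.Agent.Y111.HR.Euler

/-!
# Orders of zeta functions and ranks of higher Chow groups: definitions
-/

set_option autoImplicit false

open CategoryTheory AlgebraicGeometry

namespace Pool.Agent.Y111.HR

open Pool.Agent.Y116.UV

/-- Data of rational higher Chow groups of the schemes over `ℤ`: `M X i n` is `CH_n(X, i) ⊗ ℚ`, the
homology in degree `i` of Bloch's cycle complex of `X`, indexed by dimension: in degree `i` it is
generated by integral closed subschemes of `X × Δ^i` of dimension `n + i`. -/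
structure HigherChow where
  M : Sch ℤ → ℕ → ℤ → Type
  [grp : ∀ X i n, AddCommGroup (M X i n)]
  [mod : ∀ X i n, Module ℚ (M X i n)]

attribute [instance] HigherChow.grp HigherChow.mod

/-- `F` is meromorphic on `ℂ` and equal to the zeta function of `X` - the Euler product over the closed
points of `X` - on a right half plane. -/
def IsZeta (X : Scheme.{0}) (F : ℂ → ℂ) : Prop :=
  MeromorphicOn F Set.univ ∧ ∃ σ : ℝ, ∀ s : ℂ, σ < s.re →
    F s = ∏' x : {x : X // IsClosed ({x} : Set X)},
      (1 - ((Nat.card (X.residueField x.1) : ℂ) ^ (-s)))⁻¹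

/-- The alternating sum of the ranks of the groups `CH_n(X, i)`. -/
noncomputable def eulerChar (T : HigherChow) (X : Sch ℤ) (n : ℤ) : ℤ :=
  ∑ᶠ i : ℕ, (-1) ^ i * (Module.finrank ℚ (T.M X i n) : ℤ)

/-- The conjecture of Bloch and Soulé for `X`: the zeta function of `X` has a meromorphic continuation
`F`, all ranks of the groups `CH_n(X, i)` are finite, for each `n` almost all of them are zero, and the
order of the pole of `F` at each integer `n` is the alternating sum of the ranks. -/
def Formula (T : HigherChow) (X : Sch ℤ) : Prop :=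
  (∀ i n, FiniteDimensional ℚ (T.M X i n)) ∧
  (∀ n, ∃ B : ℕ, ∀ i, B ≤ i → Subsingleton (T.M X i n)) ∧
  ∃ F : ℂ → ℂ, IsZeta X.left F ∧
    ∀ n : ℤ, -meromorphicOrderAt F (n : ℂ) = (eulerChar T X n : WithTop ℤ)

/-- The maps `f`, `g`, `d` form the long exact sequence
`⋯ → CH_n(U, 1) → CH_n(Z, 0) → CH_n(X, 0) → CH_n(U, 0) → 0`. -/
def IsSequence (T : HigherChow) (Z X U : Sch ℤ) (n : ℤ) (f : ∀ i, T.M Z i n →ₗ[ℚ] T.M X i n)
    (g : ∀ i, T.M X i n →ₗ[ℚ] T.M U i n) (d : ∀ i, T.M U (i + 1) n →ₗ[ℚ] T.M Z i n) : Prop :=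
  (∀ i, Function.Exact (f i) (g i) ∧ Function.Exact (g (i + 1)) (d i) ∧
    Function.Exact (d i) (f i)) ∧ Function.Surjective (g 0)

/-- Exactness of the localisation sequences, for a closed immersion `a` and an open immersion `b` onto
its complement. -/
def Localization (sep : Prop) (T : HigherChow) : Prop :=
  ∀ {Z X U : Sch ℤ} (a : Z ⟶ X) (b : U ⟶ X), FT sep X → IsTriple a b →
    ∀ n : ℤ, ∃ f g d, IsSequence T Z X U n f g d

/-- Isomorphic schemes have isomorphic groups. -/
def IsoInvariance (sep : Prop) (T : HigherChow) : Prop :=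
  ∀ {X Y : Sch ℤ}, FT sep X → Nonempty (X ≅ Y) → ∀ i n, Nonempty (T.M X i n ≃ₗ[ℚ] T.M Y i n)

/-- Invariance under the affine bundle `Spec A[w] / (∑ f_l w_l - 1) → U` of rank `m - 1`, where `U` is
the complement of the closed subscheme `f = 0` of `Spec A`. -/
def BundleFormula (T : HigherChow) : Prop :=
  ∀ (A : Type) [CommRing A] [Algebra ℤ A] [Algebra.FiniteType ℤ A] (m : ℕ)
    (f : Fin m → A) (U : Sch ℤ) (b : U ⟶ aff ℤ A), IsOpenImmersion b.left →
    Set.range b.left = {x : PrimeSpectrum A | ∃ l, f l ∉ x.asIdeal} →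
    ∀ i n, Nonempty (T.M U i n ≃ₗ[ℚ] T.M (aff ℤ (Jou f)) i (n + ((m - 1 : ℕ) : ℤ)))

/-- The groups of `X × 𝔾_m` are `CH_(n-1)(X, i) ⊕ CH_n(X, i - 1)`. -/
def TorusFormula (T : HigherChow) : Prop :=
  ∀ (A : Type) [CommRing A] [Algebra ℤ A] [Algebra.FiniteType ℤ A] (n : ℤ),
    Nonempty (T.M (aff ℤ (LaurentPolynomial A)) 0 n ≃ₗ[ℚ] T.M (aff ℤ A) 0 (n - 1)) ∧
    ∀ i, Nonempty (T.M (aff ℤ (LaurentPolynomial A)) (i + 1) n ≃ₗ[ℚ]
      T.M (aff ℤ A) (i + 1) (n - 1) × T.M (aff ℤ A) i n)

/-- Known properties of the higher Chow groups of schemes of finite type over `ℤ`, separated ones if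
`sep` is true (Bloch, Levine): isomorphic schemes have isomorphic groups, the localisation sequences are
exact, the groups are invariant under affine bundles, the formula for `X × 𝔾_m`, there are no cycles of
dimension larger than the one of `X` (`dim`), and the conjecture is true for `Spec ℤ` (`base`; Riemann,
Quillen, Borel). -/
structure IsHigherChow (sep : Prop) (T : HigherChow) : Prop where
  iso : IsoInvariance sep T
  localization : Localization sep T
  bundle : BundleFormula T
  torus : TorusFormula T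
  dim : ∀ X : Sch ℤ, FT sep X → ∃ B : ℤ, ∀ n, B ≤ n → ∀ i, Subsingleton (T.M X i n)
  base : Formula T (aff ℤ ℤ)

end Pool.Agent.Y111.HR
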