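import Pool.Agent.Y116.UV.ZetaH

/-!
# Euler products with prescribed orders at the integers
-/

set_option autoImplicit false

open Complex

namespace Pool.Agent.Y111.HR

open Pool.Agent.Y116.UV

variable {S S' : Type}

/-- The Euler product extends to a meromorphic function on the complex plane, of order `e n` at every
integer `n`. -/
def OrdM (N : S → ℕ) (e : ℤ → ℤ) : Prop :=
  ∃ F : ℂ → ℂ, MeromorphicOn F Set.univ ∧ (∃ σ : ℝ, ∀ s : ℂ, σ < s.re → F s = eulerP N s) ∧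
    ∀ n : ℤ, meromorphicOrderAt F (n : ℂ) = ((e n : ℤ) : WithTop ℤ)

lemma OrdM.mero {N : S → ℕ} {e : ℤ → ℤ} (h : OrdM N e) : Mero N := by
  obtain ⟨F, hF, hs, -⟩ := h
  exact ⟨F, hF, hs⟩

lemma OrdM.congr {N : S → ℕ} {e e' : ℤ → ℤ} (h : OrdM N e) (he : ∀ n, e n = e' n) : OrdM N e' := by
  have : e = e' := funext he
  exact this ▸ h

lemma OrdM.equiv {N : S → ℕ} {N' : S' → ℕ} {e : ℤ → ℤ} (φ : S ≃ S') (he : ∀ x, N' (φ x) = N x)
    (h : OrdM N e) : OrdM N' e := by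
  obtain ⟨F, hF, ⟨σ, hs⟩, ho⟩ := h
  exact ⟨F, hF, ⟨σ, fun s hs' => (hs s hs').trans (eulerP_equiv φ he s)⟩, ho⟩

/-- identity theorem -/
lemma order_eq {F G : ℂ → ℂ} (hF : MeromorphicOn F Set.univ) (hG : MeromorphicOn G Set.univ) (σ : ℝ)
    (h : ∀ s : ℂ, σ < s.re → F s = G s) (x : ℂ) : meromorphicOrderAt F x = meromorphicOrderAt G x := by
  have hop : ∀ s : ℂ, σ < s.re → ∀ᶠ z in nhds s, σ < z.re := by
    intro s hs
    have : IsOpen {z : ℂ | σ < z.re} := isOpen_lt continuous_const continuous_re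
    exact this.mem_nhds hs
  have h1 : MeromorphicOn (F - G) Set.univ := hF.sub hG
  have h2 : meromorphicOrderAt (F - G) x = ⊤ := by
    by_contra hne
    have h3 := h1.meromorphicOrderAt_ne_top_of_isPreconnected (x := x) (y := ((σ + 1 : ℝ) : ℂ))
      isPreconnected_univ trivial trivial hne
    apply h3
    rw [meromorphicOrderAt_eq_top_iff]
    have h4 := hop ((σ + 1 : ℝ) : ℂ) (by rw [ofReal_re]; linarith)
    filter_upwards [nhdsWithin_le_nhds h4] with z hz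
    rw [Pi.sub_apply, h z hz, sub_self]
  rw [meromorphicOrderAt_eq_top_iff] at h2
  apply meromorphicOrderAt_congr
  filter_upwards [h2] with z hz
  rw [Pi.sub_apply] at hz
  exact sub_eq_zero.mp hz

/-- the continued Euler product is not zero near any point, and not zero or a pole far to the right -/
lemma order_right {N : S → ℕ} {g : ℕ} (hN : Adm N g) {F : ℂ → ℂ} (σ : ℝ)
    (hs : ∀ s : ℂ, σ < s.re → F s = eulerP N s) {s : ℂ} (h1 : σ < s.re) (h2 : g + 2 < s.re) :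
    meromorphicOrderAt F s = 0 := by
  have h3 : AnalyticAt ℂ (eulerP N) s := analyticAt_eulerP hN h2
  have hop : ∀ᶠ z : ℂ in nhds s, σ < z.re := by
    have : IsOpen {z : ℂ | σ < z.re} := isOpen_lt continuous_const continuous_re
    exact this.mem_nhds h1
  have h4 : AnalyticAt ℂ F s := h3.congr (by
    filter_upwards [hop] with z hz
    exact (hs z hz).symm)
  have h5 : F s ≠ 0 := by
    rw [hs s h1]
    exact eulerP_ne hN (by linarith)
  rw [h4.meromorphicOrderAt_eq, h4.analyticOrderAt_eq_zero.mpr h5]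
  rfl

lemma order_ne_top {N : S → ℕ} {g : ℕ} (hN : Adm N g) {F : ℂ → ℂ} (hF : MeromorphicOn F Set.univ)
    (σ : ℝ) (hs : ∀ s : ℂ, σ < s.re → F s = eulerP N s) (x : ℂ) : meromorphicOrderAt F x ≠ ⊤ := by
  let y : ℂ := ((max σ (g + 2) + 1 : ℝ) : ℂ)
  have hy : y.re = max σ (g + 2) + 1 := ofReal_re _
  have h0 : meromorphicOrderAt F y = 0 := by
    apply order_right hN σ hs
    · rw [hy]
      have := le_max_left σ ((g : ℝ) + 2)
      linarith
    · rw [hy]
      have := le_max_right σ ((g : ℝ) + 2)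
      linarith
  apply hF.meromorphicOrderAt_ne_top_of_isPreconnected (x := y) isPreconnected_univ trivial trivial
  rw [h0]
  exact WithTop.zero_ne_top

lemma OrdM.sum {N : S → ℕ} {N' : S' → ℕ} {g g' : ℕ} {e e' : ℤ → ℤ} (hN : Adm N g) (hN' : Adm N' g')
    (h : OrdM N e) (h' : OrdM N' e') : OrdM (Sum.elim N N') (fun n => e n + e' n) := by
  obtain ⟨F, hF, ⟨σ, hs⟩, ho⟩ := h
  obtain ⟨F', hF', ⟨σ', hs'⟩, ho'⟩ := h'
  refine ⟨F * F', hF.mul hF', ⟨max (max σ σ') (max (g + 1) (g' + 1)), fun s hs2 => ?_⟩, fun n => ?_⟩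
  · rw [max_lt_iff, max_lt_iff, max_lt_iff] at hs2
    rw [Pi.mul_apply, hs s hs2.1.1, hs' s hs2.1.2, eulerP_sum hN hN' hs2.2.1 hs2.2.2]
  · rw [meromorphicOrderAt_mul (hF _ trivial) (hF' _ trivial), ho, ho']
    exact (WithTop.coe_add _ _).symm

lemma neg_coe (a : ℤ) : -((a : ℤ) : WithTop ℤ) = ((-a : ℤ) : WithTop ℤ) := rfl

lemma OrdM.left {N : S → ℕ} {N' : S' → ℕ} {g g' : ℕ} {e e' : ℤ → ℤ} (hN : Adm N g)
    (hN' : Adm N' g') (h : OrdM (Sum.elim N N') e) (h' : OrdM N' e') :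
    OrdM N (fun n => e n - e' n) := by
  obtain ⟨F, hF, ⟨σ, hs⟩, ho⟩ := h
  obtain ⟨F', hF', ⟨σ', hs'⟩, ho'⟩ := h'
  refine ⟨F * F'⁻¹, hF.mul hF'.inv, ⟨max (max σ σ') (max (g + 1) (g' + 1)), fun s hs2 => ?_⟩,
    fun n => ?_⟩
  · rw [max_lt_iff, max_lt_iff, max_lt_iff] at hs2
    rw [Pi.mul_apply, Pi.inv_apply, hs s hs2.1.1, hs' s hs2.1.2,
      eulerP_sum hN hN' hs2.2.1 hs2.2.2, mul_inv_cancel_right₀ (eulerP_ne hN' hs2.2.2)]
  · rw [meromorphicOrderAt_mul (hF _ trivial) (hF'.inv _ trivial), meromorphicOrderAt_inv, ho, ho',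
      neg_coe, ← WithTop.coe_add, ← sub_eq_add_neg]

lemma OrdM.right {N : S → ℕ} {N' : S' → ℕ} {g g' : ℕ} {e e' : ℤ → ℤ} (hN : Adm N g)
    (hN' : Adm N' g') (h : OrdM (Sum.elim N N') e) (h' : OrdM N e') :
    OrdM N' (fun n => e n - e' n) := by
  refine OrdM.left hN' hN (OrdM.equiv (Equiv.sumComm S S') ?_ h) h'
  rintro (x | x)
  · rfl
  · rfl

lemma OrdM.shift {N : S → ℕ} {N' : S' → ℕ} {g g' : ℕ} {e' : ℤ → ℤ} (hN : Adm N g) (hN' : Adm N' g')
    (r : ℕ) (hc : ∀ q, co N' q = (q : ℂ) ^ r * co N q) (h : OrdM N' e') :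
    OrdM N (fun n => e' (n + r)) := by
  obtain ⟨F, hF, ⟨σ, hs⟩, ho⟩ := h
  refine ⟨fun z => F (z + r), fun s _ => meroAt_shift hF r s,
    ⟨max σ (max (g + 1) (g' + 1)), fun s hs2 => ?_⟩, fun n => ?_⟩
  · rw [max_lt_iff, max_lt_iff] at hs2
    have h0 : (0 : ℝ) ≤ r := by positivity
    have h1 : (s + r).re = s.re + r := by
      rw [add_re, natCast_re]
    change F (s + r) = eulerP N s
    rw [hs (s + r) (by rw [h1]; linarith)]
    have h2 := eulerP_shift hN hN' r hc (s := s + r) (by rw [h1]; linarith)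
      (by rw [add_sub_cancel_right]; exact hs2.2.1)
    rw [h2, add_sub_cancel_right]
  · rw [meromorphicOrderAt_fun_comp_add_const_eq_meromorphicOrderAt]
    have h1 : (n : ℂ) + (r : ℂ) = ((n + r : ℤ) : ℂ) := by push_cast; ring
    rw [h1, ho]

lemma OrdM.unshift {N : S → ℕ} {N' : S' → ℕ} {g g' : ℕ} {e : ℤ → ℤ} (hN : Adm N g) (hN' : Adm N' g')
    (r : ℕ) (hc : ∀ q, co N' q = (q : ℂ) ^ r * co N q) (h : OrdM N e) :
    OrdM N' (fun n => e (n - r)) := by
  obtain ⟨F, hF, ⟨σ, hs⟩, ho⟩ := h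
  refine ⟨fun z => F (z + -r), fun s _ => meroAt_shift hF (-r) s,
    ⟨max (σ + r) (max (g + 1 + r) (g' + 1)), fun s hs2 => ?_⟩, fun n => ?_⟩
  · rw [max_lt_iff, max_lt_iff] at hs2
    have h1 : (s + -(r : ℂ)).re = s.re - r := by
      rw [add_re, neg_re, natCast_re, sub_eq_add_neg]
    change F (s + -(r : ℂ)) = eulerP N' s
    rw [hs (s + -(r : ℂ)) (by rw [h1]; linarith), ← sub_eq_add_neg]
    have h3 : (s - (r : ℂ)).re = s.re - r := by
      rw [sub_re, natCast_re]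
    exact (eulerP_shift hN hN' r hc hs2.2.2 (by rw [h3]; linarith)).symm
  · rw [meromorphicOrderAt_fun_comp_add_const_eq_meromorphicOrderAt]
    have h1 : (n : ℂ) + -(r : ℂ) = ((n - r : ℤ) : ℂ) := by push_cast; ring
    rw [h1, ho]

/-- From `X × 𝔾_m` to `X`: the orders of the zeta function of `X` satisfy a recursion and are zero far
to the right. -/
lemma OrdM.torus {N : S → ℕ} {N' : S' → ℕ} {g g' : ℕ} {e' : ℤ → ℤ} (hN : Adm N g) (hN' : Adm N' g')
    (hc : ∀ q, co N' q = ((q : ℂ) - 1) * co N q) (h : OrdM N' e') :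
    ∃ e : ℤ → ℤ, OrdM N e ∧ (∀ n, e (n - 1) = e' n + e n) ∧ ∃ B : ℤ, ∀ n, B ≤ n → e n = 0 := by
  obtain ⟨F, hF, σ, hs⟩ := h.mero.torus hN hN' hc
  have hne := order_ne_top hN hF σ hs
  choose e he using fun n : ℤ => WithTop.ne_top_iff_exists.mp (hne (n : ℂ))
  refine ⟨e, ⟨F, hF, ⟨σ, hs⟩, fun n => (he n).symm⟩, ?_, ?_⟩
  · obtain ⟨G, hG, ⟨τ, ht⟩, ho⟩ := h
    intro n
    have h1 : MeromorphicOn (G * F) Set.univ := hG.mul hF
    have h2 : MeromorphicOn (fun z => F (z + -1)) Set.univ := fun s _ => meroAt_shift hF (-1) s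
    have h3 := order_eq h1 h2 (max τ (max (σ + 1) (max (g + 2) (g' + 2)))) (fun s hs2 => by
      rw [max_lt_iff, max_lt_iff, max_lt_iff] at hs2
      have h4 : (s - 1).re = s.re - 1 := by rw [sub_re, one_re]
      have h5 := eulerP_torus hN hN' hc (s := s) (by linarith) (by rw [h4]; linarith)
      change G s * F s = F (s + -1)
      rw [← sub_eq_add_neg, ht s hs2.1, hs s (by linarith), hs (s - 1) (by rw [h4]; linarith), h5,
        div_mul_cancel₀]
      exact eulerP_ne hN (by linarith)) (n : ℂ)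
    rw [meromorphicOrderAt_mul (hG _ trivial) (hF _ trivial), ho,
      meromorphicOrderAt_fun_comp_add_const_eq_meromorphicOrderAt, ← he n] at h3
    have h4 : (n : ℂ) + -1 = ((n - 1 : ℤ) : ℂ) := by push_cast; ring
    rw [h4, ← he (n - 1), ← WithTop.coe_add] at h3
    exact (WithTop.coe_injective h3).symm
  · refine ⟨⌈max σ (g + 2)⌉ + 1, fun n hn => ?_⟩
    have h1 : max σ ((g : ℝ) + 2) < n := by
      have h2 := Int.le_ceil (max σ ((g : ℝ) + 2))
      have h3 : ((⌈max σ ((g : ℝ) + 2)⌉ + 1 : ℤ) : ℝ) ≤ n := by exact_mod_cast hn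
      push_cast at h3
      linarith
    rw [max_lt_iff] at h1
    have h2 : meromorphicOrderAt F (n : ℂ) = 0 :=
      order_right hN σ hs (by rw [intCast_re]; exact h1.1) (by rw [intCast_re]; exact h1.2)
    rw [← he n] at h2
    exact WithTop.coe_injective h2

end Pool.Agent.Y111.HR
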