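import Pool.Agent.Y111.HR.Defs
import Pool.Agent.Y111.HR.Ord
import Pool.Agent.Y116.UV.Space

/-!
# The formula of Bloch and Soulé is closed under closed-open decompositions
-/

set_option autoImplicit false

open CategoryTheory AlgebraicGeometry MvPolynomial

namespace Pool.Agent.Y111.HR

open Pool.Agent.Y116.UV

variable {sep : Prop} {T : HigherChow}

lemma ft_false {X : Sch ℤ} (h : FT sep X) : FT False X := ⟨h.1, h.2, False.elim⟩

/-- the Euler characteristic of the ranks of `CH_n(X, i)` -/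
noncomputable def ch (T : HigherChow) (X : Sch ℤ) (n : ℤ) : ℤ := chi fun i => T.M X i n

lemma neg_top_ne {a : WithTop ℤ} {b : ℤ} (h : -a = ((b : ℤ) : WithTop ℤ)) :
    a = ((-b : ℤ) : WithTop ℤ) := by
  induction a with
  | top =>
    exfalso
    rw [LinearOrderedAddCommGroupWithTop.neg_top] at h
    exact WithTop.top_ne_coe h
  | coe a =>
    rw [neg_coe] at h
    have := WithTop.coe_injective h
    rw [← this, neg_neg]

lemma formula_iff (X : Sch ℤ) : Formula T X ↔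
    (∀ i n, FiniteDimensional ℚ (T.M X i n)) ∧ (∀ n, Bdd fun i => T.M X i n) ∧
    OrdM (nrm X.left) (fun n => -ch T X n) := by
  constructor
  · rintro ⟨h1, h2, F, ⟨hF, hs⟩, ho⟩
    exact ⟨h1, h2, F, hF, hs, fun n => neg_top_ne (ho n)⟩
  · rintro ⟨h1, h2, F, hF, hs, ho⟩
    refine ⟨h1, h2, F, ⟨hF, hs⟩, fun n => ?_⟩
    rw [ho n, neg_coe, neg_neg]
    rfl

lemma f_iso (hT : IsHigherChow sep T) {X Y : Sch ℤ} (hX : FT sep X) (e : Nonempty (X ≅ Y))
    (h : Formula T X) : Formula T Y := by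
  rw [formula_iff] at h ⊢
  obtain ⟨h1, h2, h3⟩ := h
  have hi := hT.iso hX e
  refine ⟨fun i n => ?_, fun n => ?_, ?_⟩
  · obtain ⟨e⟩ := hi i n
    have := h1 i n
    exact e.finiteDimensional
  · obtain ⟨B, hB⟩ := h2 n
    refine ⟨B, fun i hi' => ?_⟩
    obtain ⟨e⟩ := hi i n
    have := hB i hi'
    exact e.symm.toEquiv.subsingleton
  · obtain ⟨e⟩ := e
    obtain ⟨e'⟩ := leftIso e
    refine (h3.equiv (ptsIso e') (nrm_ptsIso e')).congr fun n => ?_
    rw [ch, ch, chi_congr fun i => hi i n]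

lemma ch_add {Z X U : Sch ℤ} (h : ∀ n : ℤ, ∃ f g d, IsSequence T Z X U n f g d)
    (hZ : ∀ i n, FiniteDimensional ℚ (T.M Z i n)) (hX : ∀ i n, FiniteDimensional ℚ (T.M X i n))
    (hU : ∀ i n, FiniteDimensional ℚ (T.M U i n)) (bZ : ∀ n, Bdd fun i => T.M Z i n)
    (bX : ∀ n, Bdd fun i => T.M X i n) (bU : ∀ n, Bdd fun i => T.M U i n) (n : ℤ) :
    ch T X n = ch T Z n + ch T U n := by
  obtain ⟨f, g, d, h1, h2⟩ := h n
  exact chi_add h1 h2 (fun i => hZ i n) (fun i => hX i n) (fun i => hU i n) (bZ n) (bX n) (bU n)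

lemma f_total (hT : IsHigherChow sep T) {Z X U : Sch ℤ} (a : Z ⟶ X) (b : U ⟶ X) (hX : FT sep X)
    (ht : IsTriple a b) (hZ : Formula T Z) (hU : Formula T U) : Formula T X := by
  rw [formula_iff] at hZ hU ⊢
  obtain ⟨z1, z2, z3⟩ := hZ
  obtain ⟨u1, u2, u3⟩ := hU
  have hs := hT.localization a b hX ht
  have x1 : ∀ i n, FiniteDimensional ℚ (T.M X i n) := by
    intro i n
    obtain ⟨f, g, d, h1, h2⟩ := hs n
    exact fin_X h1 (fun i => z1 i n) (fun i => u1 i n) i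
  have x2 : ∀ n, Bdd fun i => T.M X i n := by
    intro n
    obtain ⟨f, g, d, h1, h2⟩ := hs n
    exact bdd_X h1 (z2 n) (u2 n)
  refine ⟨x1, x2, ?_⟩
  obtain ⟨g, hg, hg'⟩ := adm_triple (ft_false hX) ht
  refine ((z3.sum hg hg' u3).equiv (ptsTriple (ft_false hX) ht) (nrm_ptsTriple (ft_false hX) ht)).congr fun n => ?_
  rw [ch_add hs z1 x1 u1 z2 x2 u2 n]
  ring

lemma f_opened (hT : IsHigherChow sep T) {Z X U : Sch ℤ} (a : Z ⟶ X) (b : U ⟶ X) (hX : FT sep X)
    (ht : IsTriple a b) (hZ : Formula T Z) (hX' : Formula T X) : Formula T U := by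
  rw [formula_iff] at hZ hX' ⊢
  obtain ⟨z1, z2, z3⟩ := hZ
  obtain ⟨x1, x2, x3⟩ := hX'
  have hs := hT.localization a b hX ht
  have u1 : ∀ i n, FiniteDimensional ℚ (T.M U i n) := by
    intro i n
    obtain ⟨f, g, d, h1, h2⟩ := hs n
    exact fin_U h1 h2 (fun i => z1 i n) (fun i => x1 i n) i
  have u2 : ∀ n, Bdd fun i => T.M U i n := by
    intro n
    obtain ⟨f, g, d, h1, h2⟩ := hs n
    exact bdd_U h1 (z2 n) (x2 n)
  refine ⟨u1, u2, ?_⟩
  obtain ⟨g, hg, hg'⟩ := adm_triple (ft_false hX) ht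
  refine (OrdM.right hg hg' (x3.equiv (ptsTriple (ft_false hX) ht).symm (nrm_ptsTriple' (ft_false hX) ht)) z3).congr
    fun n => ?_
  rw [ch_add hs z1 x1 u1 z2 x2 u2 n]
  ring

lemma f_closed (hT : IsHigherChow sep T) {Z X U : Sch ℤ} (a : Z ⟶ X) (b : U ⟶ X) (hX : FT sep X)
    (ht : IsTriple a b) (hX' : Formula T X) (hU : Formula T U) : Formula T Z := by
  rw [formula_iff] at hU hX' ⊢
  obtain ⟨u1, u2, u3⟩ := hU
  obtain ⟨x1, x2, x3⟩ := hX'
  have hs := hT.localization a b hX ht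
  have z1 : ∀ i n, FiniteDimensional ℚ (T.M Z i n) := by
    intro i n
    obtain ⟨f, g, d, h1, h2⟩ := hs n
    exact fin_Z h1 (fun i => x1 i n) (fun i => u1 i n) i
  have z2 : ∀ n, Bdd fun i => T.M Z i n := by
    intro n
    obtain ⟨f, g, d, h1, h2⟩ := hs n
    exact bdd_Z h1 (x2 n) (u2 n)
  refine ⟨z1, z2, ?_⟩
  obtain ⟨g, hg, hg'⟩ := adm_triple (ft_false hX) ht
  refine (OrdM.left hg hg' (x3.equiv (ptsTriple (ft_false hX) ht).symm (nrm_ptsTriple' (ft_false hX) ht)) u3).congr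
    fun n => ?_
  rw [ch_add hs z1 x1 u1 z2 x2 u2 n]
  ring

lemma ord_aff {A : Type} [CommRing A] [Algebra ℤ A] (e : ℤ → ℤ) :
    OrdM (nrm (aff ℤ A).left) e ↔ OrdM (nm (Set.univ : Set (Ideal A))) e :=
  ⟨fun h => OrdM.equiv ptsAff nm_ptsAff h, fun h => OrdM.equiv ptsAff.symm nrm_ptsAff' h⟩

lemma ord_ne {A : Type} [CommRing A] {m : ℕ} (f : Fin m → A) [JacobsonSpace (Spec (.of A))]
    (U : Scheme.{0}) (j : U ⟶ Spec (.of A)) (hj : IsOpenImmersion j)
    (hr : Set.range j = {x : PrimeSpectrum A | ∃ l, f l ∉ x.asIdeal}) (e : ℤ → ℤ) :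
    OrdM (nm (neS f)) e ↔ OrdM (nrm U) e := by
  constructor
  · refine OrdM.equiv (Equiv.ofBijective _ (ptsNe_bijective f j hr)).symm ?_
    intro x
    rw [← nm_ptsNe f j hr]
    congr 1
    exact (Equiv.ofBijective _ (ptsNe_bijective f j hr)).apply_symm_apply x
  · refine OrdM.equiv (Equiv.ofBijective _ (ptsNe_bijective f j hr)) ?_
    intro x
    exact nm_ptsNe f j hr x

section Bundle

variable (hT : IsHigherChow sep T) (A : Type) [CommRing A] [Algebra ℤ A] [hA : Algebra.FiniteType ℤ A]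
  (m : ℕ) (f : Fin m → A) (U : Sch ℤ) (j : U ⟶ aff ℤ A) (hj : IsOpenImmersion j.left)
  (hr : Set.range j.left = {x : PrimeSpectrum A | ∃ l, f l ∉ x.asIdeal})

include hT hj hr

lemma ch_bundle (n : ℤ) : ch T U n = ch T (aff ℤ (Jou f)) (n + ((m - 1 : ℕ) : ℤ)) :=
  chi_congr fun i => hT.bundle A m f U j hj hr i n

lemma co_bundle (q : ℕ) : co (nm (Set.univ : Set (Ideal (Jou f)))) q =
    (q : ℂ) ^ (m - 1) * co (nm (neS f)) q := by
  have h1 := ftz (ft_jou ℤ f)
  have h2 := ftz hA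
  refine co_compare _ _ (fun q => (q : ℂ) ^ (m - 1)) ?_ q
  intro F _ _
  rw [card_jou]
  push_cast
  ring

lemma f_jou (h : Formula T (aff ℤ (Jou f))) : Formula T U := by
  rw [formula_iff] at h ⊢
  obtain ⟨h1, h2, h3⟩ := h
  have hi := hT.bundle A m f U j hj hr
  refine ⟨fun i n => ?_, fun n => ?_, ?_⟩
  · obtain ⟨e⟩ := hi i n
    have := h1 i (n + ((m - 1 : ℕ) : ℤ))
    exact e.symm.finiteDimensional
  · obtain ⟨B, hB⟩ := h2 (n + ((m - 1 : ℕ) : ℤ))
    refine ⟨B, fun i hi' => ?_⟩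
    obtain ⟨e⟩ := hi i n
    have := hB i hi'
    exact e.toEquiv.subsingleton
  · have e1 := ftz (ft_jou ℤ f)
    have e2 := ftz hA
    obtain ⟨g, hg⟩ := exists_adm (neS f)
    obtain ⟨g', hg'⟩ := exists_adm (Set.univ : Set (Ideal (Jou f)))
    have h4 := ((ord_aff _).mp h3).shift hg hg' (m - 1) (co_bundle hT A m f U j hj hr)
    have hJ : JacobsonSpace (Spec (.of A)) := jacobson (ft_aff (A := A) False)
    refine ((ord_ne f U.left j.left hj hr _).mp h4).congr fun n => ?_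
    rw [ch_bundle hT A m f U j hj hr n]

lemma f_jou' (h : Formula T U) : Formula T (aff ℤ (Jou f)) := by
  rw [formula_iff] at h ⊢
  obtain ⟨h1, h2, h3⟩ := h
  have hi : ∀ i n, Nonempty (T.M U i (n - ((m - 1 : ℕ) : ℤ)) ≃ₗ[ℚ] T.M (aff ℤ (Jou f)) i n) := by
    intro i n
    have h4 := hT.bundle A m f U j hj hr i (n - ((m - 1 : ℕ) : ℤ))
    rwa [sub_add_cancel] at h4
  refine ⟨fun i n => ?_, fun n => ?_, ?_⟩
  · obtain ⟨e⟩ := hi i n
    have := h1 i (n - ((m - 1 : ℕ) : ℤ))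
    exact e.finiteDimensional
  · obtain ⟨B, hB⟩ := h2 (n - ((m - 1 : ℕ) : ℤ))
    refine ⟨B, fun i hi' => ?_⟩
    obtain ⟨e⟩ := hi i n
    have := hB i hi'
    exact e.symm.toEquiv.subsingleton
  · have e1 := ftz (ft_jou ℤ f)
    have e2 := ftz hA
    obtain ⟨g, hg⟩ := exists_adm (neS f)
    obtain ⟨g', hg'⟩ := exists_adm (Set.univ : Set (Ideal (Jou f)))
    have hJ : JacobsonSpace (Spec (.of A)) := jacobson (ft_aff (A := A) False)
    have h4 := ((ord_ne f U.left j.left hj hr _).mpr h3).unshift hg hg' (m - 1)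
      (co_bundle hT A m f U j hj hr)
    refine ((ord_aff _).mpr h4).congr fun n => ?_
    rw [ch_bundle hT A m f U j hj hr, sub_add_cancel]

end Bundle

lemma f_space (hT : IsHigherChow sep T) (n : ℕ) : Formula T (aff ℤ (MvPolynomial (Fin n) ℤ)) := by
  have h := f_jou' hT ℤ (n + 1) (f1 ℤ n) (aff ℤ ℤ) (𝟙 _) inferInstance (range_id n) hT.base
  exact f_iso hT (ft_aff sep) ⟨(affIso (jouOne ℤ n)).symm⟩ h

lemma f_torus (hT : IsHigherChow sep T) (A : Type) [CommRing A] [Algebra ℤ A]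
    [hA : Algebra.FiniteType ℤ A] (h : Formula T (aff ℤ (LaurentPolynomial A))) :
    Formula T (aff ℤ A) := by
  rw [formula_iff] at h ⊢
  obtain ⟨h1, h2, h3⟩ := h
  have x1 : ∀ i n, FiniteDimensional ℚ (T.M (aff ℤ A) i n) := by
    intro i n
    obtain ⟨e⟩ := (hT.torus A n).2 i
    have h4 := h1 (i + 1) n
    have h5 : FiniteDimensional ℚ (T.M (aff ℤ A) (i + 1) (n - 1) × T.M (aff ℤ A) i n) :=
      e.finiteDimensional
    exact Module.Finite.of_surjective
      (LinearMap.snd ℚ (T.M (aff ℤ A) (i + 1) (n - 1)) (T.M (aff ℤ A) i n)) fun x => ⟨(0, x), rfl⟩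
  have x2 : ∀ n, Bdd fun i => T.M (aff ℤ A) i n := by
    intro n
    obtain ⟨B, hB⟩ := h2 n
    refine ⟨B, fun i hi => ?_⟩
    obtain ⟨e⟩ := (hT.torus A n).2 i
    have h4 := hB (i + 1) (hi.trans (Nat.le_succ i))
    have h5 : Subsingleton (T.M (aff ℤ A) (i + 1) (n - 1) × T.M (aff ℤ A) i n) :=
      e.symm.toEquiv.subsingleton
    exact ⟨fun x y => congrArg Prod.snd (Subsingleton.elim
      ((0, x) : T.M (aff ℤ A) (i + 1) (n - 1) × T.M (aff ℤ A) i n) (0, y))⟩
  refine ⟨x1, x2, ?_⟩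
  have ct : ∀ n, ch T (aff ℤ (LaurentPolynomial A)) n = ch T (aff ℤ A) (n - 1) - ch T (aff ℤ A) n := by
    intro n
    obtain ⟨⟨e0⟩, he⟩ := hT.torus A n
    exact chi_torus e0 (fun i => (he i).some) (fun i => x1 i n) (fun i => x1 i (n - 1)) (x2 n)
      (x2 (n - 1)) (h2 n)
  have e1 := ftz (ft_laurent (R := ℤ) A)
  have e2 := ftz hA
  obtain ⟨g, hg⟩ := exists_adm (Set.univ : Set (Ideal A))
  obtain ⟨g', hg'⟩ := exists_adm (Set.univ : Set (Ideal (LaurentPolynomial A)))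
  obtain ⟨e, he, hrec, B, hB⟩ := ((ord_aff _).mp h3).torus hg hg'
    (co_compare _ _ (fun q => (q : ℂ) - 1) (by
      intro F _ _
      exact card_tor F))
  refine ((ord_aff _).mpr he).congr fun n => ?_
  have hd : ∀ n, e (n - 1) + ch T (aff ℤ A) (n - 1) = e n + ch T (aff ℤ A) n := by
    intro n
    rw [hrec n, ct n]
    ring
  obtain ⟨B', hB'⟩ := hT.dim (aff ℤ A) (ft_aff sep)
  have h0 : ∀ n, B' ≤ n → ch T (aff ℤ A) n = 0 := by
    intro n hn
    have : ∀ i, 0 ≤ i → Subsingleton (T.M (aff ℤ A) i n) := fun i _ => hB' n hn i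
    rw [ch, chi_eq _ this, Finset.range_zero, Finset.sum_empty]
  have h4 : ∀ (k : ℕ) (n : ℤ), e (n - k) + ch T (aff ℤ A) (n - k) = e n + ch T (aff ℤ A) n := by
    intro k
    induction k with
    | zero =>
      intro n
      rw [Nat.cast_zero, sub_zero]
    | succ k ih =>
      intro n
      have h5 := hd (n - k)
      have h6 : n - ((k + 1 : ℕ) : ℤ) = n - k - 1 := by push_cast; ring
      rw [h6, h5, ih]
  have h5 := h4 (max B B' - n).toNat (n + (max B B' - n).toNat)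
  rw [add_sub_cancel_right] at h5
  have h6 : max B B' ≤ n + (max B B' - n).toNat := by
    have := Int.self_le_toNat (max B B' - n)
    linarith
  rw [hB _ ((le_max_left _ _).trans h6), h0 _ ((le_max_right _ _).trans h6)] at h5
  linarith

/-- The formula is closed under closed-open decompositions, affine bundles and passing from
`X × 𝔾_m` to `X`. -/
theorem uni_formula (hT : IsHigherChow sep T) : Uni sep (Formula T) where
  iso h e hX := f_iso hT h e hX
  total i j h ht hZ hU := f_total hT i j h ht hZ hU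
  opened i j h ht hZ hX := f_opened hT i j h ht hZ hX
  closed i j h ht hX hU := f_closed hT i j h ht hX hU
  space := f_space hT
  jouanolou A _ _ _ m f U j hj hr h := f_jou hT A m f U j hj hr h
  torus A _ _ _ h := f_torus hT A h

/-- Reduction to the hypersurfaces of tripartite hypergraphs. -/
theorem formula_all (hT : IsHigherChow sep T)
    (h : ∀ (a b c : ℕ) (H : Finset (Fin a × Fin b × Fin c)), Formula T (tripS ℤ H))
    (X : Sch ℤ) (hX : FT sep X) : Formula T X :=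
  universal_int (fun n => ⟨n, Int.cast_id⟩) (uni_formula hT) h X hX

end Pool.Agent.Y111.HR
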